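import Pool.Agent.Helper29.SE.CG
import Pool.Agent.Helper10.SE.Defs6

/-!
# Project SE, block CFB: the places of the members of a family over a fixed place
-/

universe u

set_option linter.unusedSectionVars false

namespace Pool.Agent.SE

open VC Polynomial Pool.Agent.LT Pool.Agent.SC Pool.Agent.GC Pool.Agent.Helper91.Sect Pool.Agent
  Pool.Agent.TWX Pool.Agent.TW Pool.Agent.TWU Pool.Agent.Helper37.UL UL Pool.Agent.OPN
  Pool.Agent.OPG Pool.Agent.BT Pool.Agent.TWT

section resmap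

variable {k F : Type u} [Field k] [Field F] [Algebra k F]

/-- A residue map of a place. -/
structure ResMap (P : Place k F) {Ω : Type u} [Field Ω] [Algebra k Ω] (ψ : P.ring →+* Ω) :
    Prop where
  const : ∀ c : k, ψ ⟨algebraMap k F c, P.algebraMap_mem c⟩ = algebraMap k Ω c
  ker : ∀ z : P.ring, (z : F) ∈ P.ring.nonunits → ψ z = 0

theorem ResMap.ker_iff {P : Place k F} {Ω : Type u} [Field Ω] [Algebra k Ω] {ψ : P.ring →+* Ω}
    (h : ResMap P ψ) (z : P.ring) : ψ z = 0 ↔ (z : F) ∈ P.ring.nonunits := by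
  refine ⟨fun h1 => ?_, h.ker z⟩
  by_contra h2
  rw [ValuationSubring.mem_nonunits_iff_or, not_or, not_not] at h2
  have h3 : z * ⟨(z : F)⁻¹, h2.2⟩ = 1 := Subtype.ext (mul_inv_cancel₀ h2.1)
  have h4 := congrArg ψ h3
  rw [map_mul, h1, zero_mul, map_one] at h4
  exact zero_ne_one h4

theorem ResMap.aeval {P : Place k F} {Ω : Type u} [Field Ω] [Algebra k Ω] {ψ : P.ring →+* Ω}
    (h : ResMap P ψ) (z : P.ring) (p : k[X]) :
    Polynomial.aeval (ψ z) p = 0 ↔ Polynomial.aeval (z : F) p ∈ P.ring.nonunits := by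
  let cP : k →+* P.ring := (algebraMap k F).codRestrict P.ring.toSubring P.algebraMap_mem
  have h1 : ψ (eval₂ cP z p) = Polynomial.aeval (ψ z) p := by
    rw [hom_eval₂, aeval_def]
    congr 1
    exact RingHom.ext h.const
  have h2 : ((eval₂ cP z p : P.ring) : F) = Polynomial.aeval (z : F) p := by
    change P.ring.subtype (eval₂ cP z p) = _
    rw [hom_eval₂, aeval_def]
    rfl
  rw [← h1, h.ker_iff, h2]

variable [CharZero k]

/-- The product of powers of functions: the data of the place. -/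
theorem pdata_prod (hF : IsFunctionField k F) (P : Place k F) {θ π : F} {q : k[X]}
    (hθ : θ ∈ P.ring) (hq : Irreducible q) (hqθ : Polynomial.aeval θ q ∈ P.ring.nonunits)
    (hall : ∀ z ∈ P.ring, ∃ h : k[X], z - Polynomial.aeval θ h ∈ P.ring.nonunits)
    (hπ0 : π ≠ 0) (hπ1 : ord P.ring π = 1) {r : ℕ} {g : Fin r → F} (hg : ∀ s, g s ≠ 0)
    (e : Fin r → ℤ) :
    ∃ p : k[X], PData (∏ s, g s ^ e s) P θ π q p ∧
      ∀ (Ω : Type u) [Field Ω] [IsAlgClosed Ω] [Algebra k Ω] (W : ValuationSubring Ω),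
        (∀ ψ : P.ring →+* Ω, ResMap P ψ → ∀ (s : Fin r) (z : P.ring),
          (z : F) = g s * π ^ (-ord P.ring (g s)) → W.valuation (ψ z) = 1) →
        (∀ i, algebraMap k Ω (p.coeff i) ∈ W) ∧ algebraMap k Ω (p.coeff 0)⁻¹ ∈ W := by
  classical
  let iR : Algebra k P.ring :=
    ((algebraMap k F).codRestrict P.ring.toSubring P.algebraMap_mem).toAlgebra
  have sR : IsScalarTower k P.ring F := IsScalarTower.of_algebraMap_eq fun _ => rfl
  let κ := IsLocalRing.ResidueField P.ring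
  let iκ : Algebra k κ := ((IsLocalRing.residue P.ring).comp (algebraMap k P.ring)).toAlgebra
  have sκ : IsScalarTower k P.ring κ := IsScalarTower.of_algebraMap_eq fun _ => rfl
  have hres : ∀ z : P.ring, IsLocalRing.residue P.ring z = 0 ↔ (z : F) ∈ P.ring.nonunits := by
    intro z
    rw [IsLocalRing.residue_eq_zero_iff, ValuationSubring.mem_nonunits_iff_exists_mem_maximalIdeal]
    exact ⟨fun h => ⟨z.2, h⟩, fun ⟨_, h⟩ => h⟩
  let R : P.ring →ₐ[k] κ := { IsLocalRing.residue P.ring with commutes' := fun _ => rfl }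
  have hR : ∀ z, R z = IsLocalRing.residue P.ring z := fun _ => rfl
  let V : P.ring →ₐ[k] F := IsScalarTower.toAlgHom k P.ring F
  have hV : ∀ z, V z = (z : F) := fun _ => rfl
  have hae : ∀ (z : P.ring) (p : k[X]), Polynomial.aeval (R z) p = 0 ↔
      Polynomial.aeval (z : F) p ∈ P.ring.nonunits := by
    intro z p
    rw [aeval_algHom_apply, hR, hres, ← hV, ← hV, aeval_algHom_apply]
  have halg : Algebra.IsAlgebraic k κ := by
    refine ⟨fun x => ?_⟩
    obtain ⟨z, hz⟩ := IsLocalRing.residue_surjective (R := P.ring) x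
    obtain ⟨q₁, h1, h2⟩ := res_alg hF P z.2
    rw [← hz]
    exact ⟨q₁, h1, (hae z q₁).2 h2⟩
  have hunit : ∀ h : F, h ≠ 0 → ord P.ring h = 0 → ∃ z : P.ring, (z : F) = h ∧ R z ≠ 0 := by
    intro h h0 h1
    have h2 : h ∈ P.ring := (mem_iff_ord hF P h0).2 h1.ge
    refine ⟨⟨h, h2⟩, rfl, fun h3 => ?_⟩
    rw [hR, hres] at h3
    have h4 := (nonunit_iff_ord hF P h0).1 h3
    omega
  have hεord : ∀ h : F, h ≠ 0 → ord P.ring (h * π ^ (-ord P.ring h)) = 0 := by
    intro h h0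
    rw [ord_mul' hF P h0 (zpow_ne_zero _ hπ0), ord_zpow' hF P hπ0, hπ1]
    omega
  have hε0 : ∀ h : F, h ≠ 0 → h * π ^ (-ord P.ring h) ≠ 0 := fun h h0 =>
    mul_ne_zero h0 (zpow_ne_zero _ hπ0)
  choose ε hε hεR using fun s => hunit _ (hε0 (g s) (hg s)) (hεord (g s) (hg s))
  have hG0 : ∏ s, g s ^ e s ≠ 0 := Finset.prod_ne_zero_iff.2 fun s _ => zpow_ne_zero _ (hg s)
  obtain ⟨E, hE, hER⟩ := hunit _ (hε0 _ hG0) (hεord _ hG0)
  have hprod : (E : F) = ∏ s, (ε s : F) ^ e s := by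
    rw [hE, ord_prod hF P hg e Finset.univ]
    have h1 : ∀ s, (ε s : F) ^ e s = g s ^ e s * π ^ (-(e s * ord P.ring (g s))) := by
      intro s
      rw [hε, mul_zpow, ← zpow_mul]
      congr 2
      ring
    rw [Finset.prod_congr rfl fun s _ => h1 s, Finset.prod_mul_distrib]
    congr 1
    have h2 : ∀ (A : Finset (Fin r)) (f : Fin r → ℤ), π ^ (∑ s ∈ A, f s) = ∏ s ∈ A, π ^ f s := by
      intro A f
      induction A using Finset.induction_on with
      | empty => rw [Finset.sum_empty, Finset.prod_empty, zpow_zero]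
      | insert a A ha ih => rw [Finset.sum_insert ha, Finset.prod_insert ha, zpow_add₀ hπ0, ih]
    rw [← Finset.sum_neg_distrib, h2]
  have hεne : ∀ s, (ε s : F) ≠ 0 := by
    intro s
    rw [hε]
    exact hε0 _ (hg s)
  have hrel : E * ∏ s, ε s ^ (-e s).toNat = ∏ s, ε s ^ (e s).toNat := by
    apply Subtype.ext
    push_cast
    rw [hprod, ← Finset.prod_mul_distrib]
    refine Finset.prod_congr rfl fun s _ => ?_
    rw [← zpow_natCast, ← zpow_natCast, ← zpow_add₀ (hεne s)]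
    congr 1
    omega
  have hint : IsIntegral k (R E) := Algebra.IsIntegral.isIntegral (R E)
  refine ⟨minpoly k (R E), ⟨hθ, hq, hqθ, hall, hπ0, hπ1, minpoly.monic hint,
    minpoly.coeff_zero_ne_zero hint hER, ?_⟩, ?_⟩
  · rw [← hE, ← hae, minpoly.aeval]
  · intro Ω _ _ _ W hψ
    refine minpoly_prod_mem fun φ => ?_
    have hres' : ResMap P ((φ : κ →+* Ω).comp (R : P.ring →+* κ)) := by
      refine ⟨fun c => ?_, fun z hz => ?_⟩
      · exact (φ.commutes c)
      · change φ (R z) = 0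
        rw [hR, (hres z).2 hz, map_zero]
    have h3 : ∀ s, W.valuation (φ (R (ε s))) = 1 := fun s => hψ _ hres' s (ε s) (hε s)
    have h4 := congrArg (fun z => W.valuation (φ (R z))) hrel
    simp only [map_mul, map_prod, map_pow, h3, one_pow, Finset.prod_const_one, mul_one] at h4
    exact h4

theorem exists_resMap (hF : IsFunctionField k F) (P : Place k F) (Ω : Type u) [Field Ω]
    [IsAlgClosed Ω] [Algebra k Ω] : ∃ ψ : P.ring →+* Ω, ResMap P ψ := by
  let iR : Algebra k P.ring :=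
    ((algebraMap k F).codRestrict P.ring.toSubring P.algebraMap_mem).toAlgebra
  have sR : IsScalarTower k P.ring F := IsScalarTower.of_algebraMap_eq fun _ => rfl
  let κ := IsLocalRing.ResidueField P.ring
  let iκ : Algebra k κ := ((IsLocalRing.residue P.ring).comp (algebraMap k P.ring)).toAlgebra
  have sκ : IsScalarTower k P.ring κ := IsScalarTower.of_algebraMap_eq fun _ => rfl
  have hres : ∀ z : P.ring, IsLocalRing.residue P.ring z = 0 ↔ (z : F) ∈ P.ring.nonunits := by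
    intro z
    rw [IsLocalRing.residue_eq_zero_iff, ValuationSubring.mem_nonunits_iff_exists_mem_maximalIdeal]
    exact ⟨fun h => ⟨z.2, h⟩, fun ⟨_, h⟩ => h⟩
  let R : P.ring →ₐ[k] κ := { IsLocalRing.residue P.ring with commutes' := fun _ => rfl }
  have hR : ∀ z, R z = IsLocalRing.residue P.ring z := fun _ => rfl
  let V : P.ring →ₐ[k] F := IsScalarTower.toAlgHom k P.ring F
  have hV : ∀ z, V z = (z : F) := fun _ => rfl
  have hae : ∀ (z : P.ring) (p : k[X]), Polynomial.aeval (R z) p = 0 ↔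
      Polynomial.aeval (z : F) p ∈ P.ring.nonunits := by
    intro z p
    rw [aeval_algHom_apply, hR, hres, ← hV, ← hV, aeval_algHom_apply]
  have halg : Algebra.IsAlgebraic k κ := by
    refine ⟨fun x => ?_⟩
    obtain ⟨z, hz⟩ := IsLocalRing.residue_surjective (R := P.ring) x
    obtain ⟨q₁, h1, h2⟩ := res_alg hF P z.2
    rw [← hz]
    exact ⟨q₁, h1, (hae z q₁).2 h2⟩
  let φ : κ →ₐ[k] Ω := IsAlgClosed.lift
  refine ⟨(φ : κ →+* Ω).comp (R : P.ring →+* κ), fun c => φ.commutes c, fun z hz => ?_⟩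
  change φ (R z) = 0
  rw [hR, (hres z).2 hz, map_zero]

end resmap

section unitat

variable {k₀ K₀ : Type u} [Field k₀] [CharZero k₀] [Field K₀] [Algebra k₀ K₀]

/-- A family with a nonzero reduction has unit values where the norm of the reduction has unit values. -/
theorem unit_at (hF : IsFunctionField k₀ K₀) (P : Place k₀ K₀) {N : ℕ}
    {G : MvPolynomial (Fin N) P.ring} {ν : Fin N →₀ ℕ}
    (hG : ((G.coeff ν : P.ring) : K₀) ∉ P.ring.nonunits) :
    ∃ (M : MvPolynomial (Fin N) k₀) (A : Finset k₀), M ≠ 0 ∧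
      ∀ (Ω : Type u) [Field Ω] [Algebra k₀ Ω] (χ : P.ring →+* Ω), ResMap P χ →
        ∀ (W : ValuationSubring Ω) (b : Fin N → Ω), (∀ q, b q ∈ W) →
        (∀ c ∈ A, algebraMap k₀ Ω c ∈ W) →
        W.valuation (MvPolynomial.eval₂ (algebraMap k₀ Ω) b M) = 1 →
        W.valuation (MvPolynomial.eval₂ χ b G) = 1 := by
  classical
  let iR : Algebra k₀ P.ring :=
    ((algebraMap k₀ K₀).codRestrict P.ring.toSubring P.algebraMap_mem).toAlgebra
  have sR : IsScalarTower k₀ P.ring K₀ := IsScalarTower.of_algebraMap_eq fun _ => rfl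
  let κ := IsLocalRing.ResidueField P.ring
  let iκ : Algebra k₀ κ := ((IsLocalRing.residue P.ring).comp (algebraMap k₀ P.ring)).toAlgebra
  have sκ : IsScalarTower k₀ P.ring κ := IsScalarTower.of_algebraMap_eq fun _ => rfl
  have hres : ∀ z : P.ring, IsLocalRing.residue P.ring z = 0 ↔ (z : K₀) ∈ P.ring.nonunits := by
    intro z
    rw [IsLocalRing.residue_eq_zero_iff, ValuationSubring.mem_nonunits_iff_exists_mem_maximalIdeal]
    exact ⟨fun h => ⟨z.2, h⟩, fun ⟨_, h⟩ => h⟩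
  let R : P.ring →ₐ[k₀] κ := { IsLocalRing.residue P.ring with commutes' := fun _ => rfl }
  have hR : ∀ z, R z = IsLocalRing.residue P.ring z := fun _ => rfl
  let V : P.ring →ₐ[k₀] K₀ := IsScalarTower.toAlgHom k₀ P.ring K₀
  have hV : ∀ z, V z = (z : K₀) := fun _ => rfl
  have hae : ∀ (z : P.ring) (p : k₀[X]), Polynomial.aeval (R z) p = 0 ↔
      Polynomial.aeval (z : K₀) p ∈ P.ring.nonunits := by
    intro z p
    rw [aeval_algHom_apply, hR, hres, ← hV, ← hV, aeval_algHom_apply]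
  have halg : Algebra.IsAlgebraic k₀ κ := by
    refine ⟨fun x => ?_⟩
    obtain ⟨z, hz⟩ := IsLocalRing.residue_surjective (R := P.ring) x
    obtain ⟨q₁, h1, h2⟩ := res_alg hF P z.2
    rw [← hz]
    exact ⟨q₁, h1, (hae z q₁).2 h2⟩
  -- the reduction
  set A₀ : MvPolynomial (Fin N) κ := MvPolynomial.map (IsLocalRing.residue P.ring) G with hA₀
  have hA0 : A₀ ≠ 0 := by
    intro h
    apply hG
    have h1 := congrArg (fun p => MvPolynomial.coeff ν p) h
    simp only [hA₀, MvPolynomial.coeff_map, MvPolynomial.coeff_zero] at h1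
    exact (hres _).1 h1
  obtain ⟨M, hM0, B, hB⟩ := MvPolynomial.exists_dvd_map_of_isAlgebraic (R := k₀) hA0
  let cf : k₀[X] → Finset k₀ := fun p => (Finset.range (p.natDegree + 1)).image p.coeff
  have hcf : ∀ (p : k₀[X]) (i : ℕ), p.coeff i ≠ 0 → p.coeff i ∈ cf p := by
    intro p i hi
    refine Finset.mem_image_of_mem _ (Finset.mem_range.2 ?_)
    have := le_natDegree_of_ne_zero hi
    omega
  let cm : MvPolynomial (Fin N) κ → Finset k₀ := fun D =>
    D.support.biUnion fun μ => cf (minpoly k₀ (D.coeff μ))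
  refine ⟨M, cm A₀ ∪ cm B, hM0, ?_⟩
  intro Ω _ _ χ hχ W b hb hA hM
  -- the residue map factors through the residue field
  have hloc : IsLocalHom χ := by
    refine ⟨fun z hz => ?_⟩
    by_contra h1
    have h2 : (z : K₀) ∈ P.ring.nonunits := by
      rw [← hres]
      rw [IsLocalRing.residue_eq_zero_iff]
      exact (IsLocalRing.mem_maximalIdeal z).2 h1
    exact hz.ne_zero (hχ.ker z h2)
  let χ' : κ →+* Ω := IsLocalRing.ResidueField.lift χ
  have hχ' : χ'.comp (IsLocalRing.residue P.ring) = χ := IsLocalRing.ResidueField.lift_comp_residue χ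
  have hχk : χ'.comp (algebraMap k₀ κ) = algebraMap k₀ Ω := by
    refine RingHom.ext fun c => ?_
    have h1 : χ' (algebraMap k₀ κ c) = (χ'.comp (IsLocalRing.residue P.ring))
      ⟨algebraMap k₀ K₀ c, P.algebraMap_mem c⟩ := rfl
    rw [RingHom.comp_apply, h1, hχ']
    exact hχ.const c
  -- coefficients
  have hmem : ∀ D : MvPolynomial (Fin N) κ, (∀ c ∈ cm D, algebraMap k₀ Ω c ∈ W) →
      MvPolynomial.eval₂ χ' b D ∈ W := by
    intro D hD
    rw [MvPolynomial.eval₂_eq]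
    refine W.toSubring.sum_mem fun μ hμ => ?_
    refine W.toSubring.mul_mem ?_ (W.toSubring.prod_mem fun i _ => W.toSubring.pow_mem (hb i) _)
    set c := D.coeff μ with hc
    have hint : IsIntegral k₀ c := Algebra.IsIntegral.isIntegral c
    have hco : ∀ n, ((minpoly k₀ c).map (algebraMap k₀ Ω)).coeff n ∈ W := by
      intro n
      rw [coeff_map]
      by_cases h0 : (minpoly k₀ c).coeff n = 0
      · rw [h0, map_zero]
        exact W.zero_mem
      · exact hD _ (Finset.mem_biUnion.2 ⟨μ, hμ, hcf _ n h0⟩)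
    obtain ⟨Q, hQ1, hQ2⟩ := exists_lift_monic W ((minpoly k₀ c).map (algebraMap k₀ Ω))
      ((minpoly.monic hint).map _) hco
    apply mem_of_root W hQ2
    rw [hQ1, eval_map, ← hχk, ← hom_eval₂, ← aeval_def, minpoly.aeval, map_zero]
  have h1 : MvPolynomial.eval₂ χ b G = MvPolynomial.eval₂ χ' b A₀ := by
    rw [hA₀, MvPolynomial.eval₂_map, hχ']
  have h2 : MvPolynomial.eval₂ (algebraMap k₀ Ω) b M =
      MvPolynomial.eval₂ χ' b A₀ * MvPolynomial.eval₂ χ' b B := by
    rw [← MvPolynomial.eval₂_mul, ← hB, MvPolynomial.eval₂_map, hχk]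
  rw [h1]
  rw [h2, map_mul] at hM
  have h3 := (W.valuation_le_one_iff _).2 (hmem A₀ fun c hc => hA c (Finset.mem_union_left _ hc))
  have h4 := (W.valuation_le_one_iff _).2 (hmem B fun c hc => hA c (Finset.mem_union_right _ hc))
  refine le_antisymm h3 ?_
  rw [← hM]
  exact mul_le_of_le_one_right' h4

/-- The normalized family. -/
theorem exists_normal (hF : IsFunctionField k₀ K₀) (P : Place k₀ K₀) {π : K₀} (hπ0 : π ≠ 0)
    (hπ1 : ord P.ring π = 1) {N : ℕ} {g : MvPolynomial (Fin N) K₀} (hg : g ≠ 0) :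
    ∃ (d : ℤ) (G : MvPolynomial (Fin N) P.ring) (ν : Fin N →₀ ℕ),
      G.map P.ring.subtype = MvPolynomial.C (π ^ (-d)) * g ∧
      ((G.coeff ν : P.ring) : K₀) ∉ P.ring.nonunits := by
  classical
  obtain ⟨ν, hν, hmin⟩ := Finset.exists_min_image g.support (fun μ => ord P.ring (g.coeff μ))
    (MvPolynomial.support_nonempty.2 hg)
  set d := ord P.ring (g.coeff ν) with hd
  have hord : ∀ μ ∈ g.support, ord P.ring (π ^ (-d) * g.coeff μ) = ord P.ring (g.coeff μ) - d := by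
    intro μ hμ
    rw [ord_mul' hF P (zpow_ne_zero _ hπ0) (MvPolynomial.mem_support_iff.1 hμ), ord_zpow' hF P hπ0, hπ1]
    ring
  have hmem : ∀ μ, π ^ (-d) * g.coeff μ ∈ P.ring := by
    intro μ
    by_cases hμ : g.coeff μ = 0
    · rw [hμ, mul_zero]
      exact P.ring.zero_mem
    · have hμ' := MvPolynomial.mem_support_iff.2 hμ
      rw [mem_iff_ord hF P (mul_ne_zero (zpow_ne_zero _ hπ0) hμ), hord μ hμ']
      have := hmin μ hμ'
      omega
  let G : MvPolynomial (Fin N) P.ring :=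
    ∑ μ ∈ g.support, MvPolynomial.monomial μ ⟨π ^ (-d) * g.coeff μ, hmem μ⟩
  have hGm : G.map P.ring.subtype = MvPolynomial.C (π ^ (-d)) * g := by
    rw [map_sum]
    conv_rhs => rw [g.as_sum, Finset.mul_sum]
    refine Finset.sum_congr rfl fun μ _ => ?_
    rw [MvPolynomial.map_monomial, MvPolynomial.C_mul_monomial]
    rfl
  refine ⟨d, G, ν, hGm, ?_⟩
  have h1 : ((G.coeff ν : P.ring) : K₀) = π ^ (-d) * g.coeff ν := by
    have h2 := congrArg (fun p => MvPolynomial.coeff ν p) hGm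
    simp only [MvPolynomial.coeff_map, MvPolynomial.coeff_C_mul] at h2
    exact h2
  rw [h1]
  intro h2
  have h3 := (nonunit_iff_ord hF P (mul_ne_zero (zpow_ne_zero _ hπ0)
    (MvPolynomial.mem_support_iff.1 hν))).1 h2
  rw [hord ν hν] at h3
  omega

end unitat

/-- **Block CFB.** -/
theorem cfb : StmtCFB := by
  intro k₀ K₀ _ _ _ _ hK₀ N r g hg P₀
  classical
  obtain ⟨θ₀, hθ₀, q₀, hq₀, hqθ₀, hall₀⟩ := Pool.Agent.TWT.exists_theta_all hK₀ P₀
  obtain ⟨π₀, hπ0, hπ1⟩ := exists_unif hK₀ P₀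
  choose d G ν hGm hGν using fun s => exists_normal hK₀ P₀ hπ0 hπ1 (hg s)
  choose M A hM0 hMA using fun s => unit_at hK₀ P₀ (hGν s)
  let U : Finset (MvPolynomial (Fin N) k₀) := Finset.univ.image M
  let E : Finset (MvPolynomial (Fin N) k₀) := U ∪ (Finset.univ.image (fun q => MvPolynomial.X q) ∪
    Finset.univ.biUnion fun s => (A s).image MvPolynomial.C)
  refine ⟨q₀, E, U, hq₀.ne_zero, Finset.subset_union_left, ?_, ?_⟩
  · intro h
    obtain ⟨s, -, hs⟩ := Finset.mem_image.1 h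
    exact hM0 s hs
  intro k K₁ _ _ _ _ _ _ _ _ hK₁ hgen₁ a W hE hU P₁ hP e
  have hk : CharZero k := charZero_of_injective_algebraMap (algebraMap k₀ k).injective
  set Ω := AlgebraicClosure k with hΩ
  have hnon : ∀ z : K₀, algebraMap K₀ K₁ z ∈ P₁.ring.nonunits ↔ z ∈ P₀.ring.nonunits := by
    intro z
    rw [ValuationSubring.mem_nonunits_iff_or, ValuationSubring.mem_nonunits_iff_or, map_eq_zero,
      ← map_inv₀, ← hP]
  let j : P₀.ring →+* P₁.ring := ((algebraMap K₀ K₁).comp P₀.ring.subtype).codRestrict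
    P₁.ring.toSubring fun z => (hP z).1 z.2
  have hj : ∀ z : P₀.ring, ((j z : P₁.ring) : K₁) = algebraMap K₀ K₁ z := fun _ => rfl
  have hconst : ∀ c : k₀, algebraMap K₀ K₁ (algebraMap k₀ K₀ c) =
      algebraMap k K₁ (algebraMap k₀ k c) := by
    intro c
    rw [← IsScalarTower.algebraMap_apply, ← IsScalarTower.algebraMap_apply]
  have hcomp : ∀ ψ : P₁.ring →+* Ω, ResMap P₁ ψ → ResMap P₀ (ψ.comp j) := by
    intro ψ hψ
    refine ⟨fun c => ?_, fun z hz => ?_⟩
    · have h1 : j ⟨algebraMap k₀ K₀ c, P₀.algebraMap_mem c⟩ =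
          ⟨algebraMap k K₁ (algebraMap k₀ k c), P₁.algebraMap_mem _⟩ := Subtype.ext (hconst c)
      rw [RingHom.comp_apply, h1, hψ.const, ← IsScalarTower.algebraMap_apply]
    · rw [RingHom.comp_apply]
      exact hψ.ker _ ((hnon z).2 hz)
  -- the values of the families
  let b₁ : Fin N → P₁.ring := fun q => ⟨algebraMap k K₁ (a q), P₁.algebraMap_mem _⟩
  let y : Fin r → P₁.ring := fun s => MvPolynomial.eval₂ j b₁ (G s)
  have hψy : ∀ ψ : P₁.ring →+* Ω, ResMap P₁ ψ → ∀ s, W.valuation (ψ (y s)) = 1 := by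
    intro ψ hψ s
    have h1 : ψ (y s) = MvPolynomial.eval₂ (ψ.comp j) (fun q => algebraMap k Ω (a q)) (G s) := by
      change ψ (MvPolynomial.eval₂ j b₁ (G s)) = _
      rw [MvPolynomial.eval₂_comp_left]
      congr 1
      funext q
      exact hψ.const (a q)
    rw [h1]
    refine hMA s Ω (ψ.comp j) (hcomp ψ hψ) W _ (fun q => ?_) (fun c hc => ?_) ?_
    · have h2 := hE (MvPolynomial.X q) (Finset.mem_union_right _ (Finset.mem_union_left _
        (Finset.mem_image_of_mem _ (Finset.mem_univ q))))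
      rwa [evp, MvPolynomial.coe_eval₂Hom, MvPolynomial.eval₂_X] at h2
    · have h2 := hE (MvPolynomial.C c) (Finset.mem_union_right _ (Finset.mem_union_right _
        (Finset.mem_biUnion.2 ⟨s, Finset.mem_univ s, Finset.mem_image_of_mem _ hc⟩)))
      rw [evp, MvPolynomial.coe_eval₂Hom, MvPolynomial.eval₂_C] at h2
      rwa [IsScalarTower.algebraMap_apply k₀ k Ω]
    · have h2 := hU (M s) (Finset.mem_image_of_mem _ (Finset.mem_univ s))
      rw [evp, MvPolynomial.coe_eval₂Hom, MvPolynomial.eval₂_comp_left] at h2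
      rw [IsScalarTower.algebraMap_eq k₀ k Ω]
      exact h2
  obtain ⟨ψ₁, hψ₁⟩ := exists_resMap hK₁ P₁ Ω
  -- the order
  set π₁ : K₁ := algebraMap K₀ K₁ π₀ with hπ₁
  have hπ₁0 : π₁ ≠ 0 := (_root_.map_ne_zero _).2 hπ0
  have hyv : ∀ s, ((y s : P₁.ring) : K₁) = π₁ ^ (-d s) * famp (K₁ := K₁) a (g s) := by
    intro s
    have h1 : ((y s : P₁.ring) : K₁) = MvPolynomial.eval₂ ((algebraMap K₀ K₁).comp P₀.ring.subtype)
        (fun q => algebraMap k K₁ (a q)) (G s) := by
      change P₁.ring.subtype (MvPolynomial.eval₂ j b₁ (G s)) = _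
      rw [MvPolynomial.eval₂_comp_left]
      rfl
    rw [h1, ← MvPolynomial.eval₂_map, hGm, MvPolynomial.eval₂_mul, MvPolynomial.eval₂_C, map_zpow₀]
    rfl
  have hynon : ∀ s, ((y s : P₁.ring) : K₁) ∉ P₁.ring.nonunits := by
    intro s h
    have h1 := hψy ψ₁ hψ₁ s
    rw [hψ₁.ker _ h, map_zero] at h1
    exact zero_ne_one h1
  have hy0 : ∀ s, ((y s : P₁.ring) : K₁) ≠ 0 := by
    intro s h
    apply hynon s
    rw [h, ValuationSubring.mem_nonunits_iff, map_zero]
    exact zero_lt_one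
  have hyord : ∀ s, ord P₁.ring ((y s : P₁.ring) : K₁) = 0 := by
    intro s
    have h1 := (mem_iff_ord hK₁ P₁ (hy0 s)).1 (y s).2
    have h2 := mt (nonunit_iff_ord hK₁ P₁ (hy0 s)).2 (hynon s)
    omega
  have hg0 : ∀ s, famp (K₁ := K₁) a (g s) ≠ 0 := by
    intro s h
    apply hy0 s
    rw [hyv, h, mul_zero]
  -- the residue of `θ₀`
  let θ' : P₁.ring := j ⟨θ₀, hθ₀⟩
  have hθ'v : ((θ' : P₁.ring) : K₁) = algebraMap K₀ K₁ θ₀ := rfl
  set c₁ : Ω := ψ₁ θ' with hc₁
  have hq₀c : aeval c₁ (q₀.map (algebraMap k₀ k)) = 0 := by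
    have h1 := ((hcomp ψ₁ hψ₁).aeval ⟨θ₀, hθ₀⟩ q₀).2 hqθ₀
    have h2 : (ψ₁.comp j) ⟨θ₀, hθ₀⟩ = c₁ := rfl
    rw [h2] at h1
    rw [aeval_map_algebraMap]
    exact h1
  have hq₀k : q₀.map (algebraMap k₀ k) ≠ 0 :=
    (Polynomial.map_ne_zero_iff (algebraMap k₀ k).injective).2 hq₀.ne_zero
  have hcalg : IsAlgebraic k c₁ := ⟨_, hq₀k, hq₀c⟩
  set ρ : k[X] := minpoly k c₁ with hρ
  have hρi : Irreducible ρ := minpoly.irreducible hcalg.isIntegral
  have hρθ : aeval (algebraMap K₀ K₁ θ₀) ρ ∈ P₁.ring.nonunits := by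
    rw [← hθ'v, ← hψ₁.aeval]
    exact minpoly.aeval k c₁
  have hπ₁1 : ord P₁.ring π₁ = 1 :=
    ord_unifG hK₀ hK₁ hgen₁ (fun z => (hP z).symm) hθ₀ hq₀ hqθ₀ hall₀ hρi hρθ hπ0 hπ1
  have hall₁ := residueG hK₀ hK₁ hgen₁ (fun z => (hP z).symm) hθ₀ hq₀ hqθ₀ hall₀ hρi hρθ
  have hgord : ∀ s, ord P₁.ring (famp (K₁ := K₁) a (g s)) = d s := by
    intro s
    have h1 := hyord s
    rw [hyv, ord_mul' hK₁ P₁ (zpow_ne_zero _ hπ₁0) (hg0 s), ord_zpow' hK₁ P₁ hπ₁0, hπ₁1] at h1
    omega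
  obtain ⟨p, hp1, hp2⟩ := pdata_prod hK₁ P₁ ((hP θ₀).1 hθ₀) hρi hρθ hall₁ hπ₁0 hπ₁1 hg0 e
  have hW := hp2 Ω W (fun ψ hψ s z hz => by
    have h1 : z = y s := by
      apply Subtype.ext
      rw [hz, hyv, hgord, mul_comm]
    rw [h1]
    exact hψy ψ hψ s)
  refine ⟨_, _, _, p, hp1, ?_, hW.1, hW.2⟩
  intro c hc
  have h1 : ρ ∣ q₀.map (algebraMap k₀ k) := minpoly.dvd k c₁ hq₀c
  obtain ⟨t, ht⟩ := h1
  have h2 : aeval c (q₀.map (algebraMap k₀ k)) = 0 := by
    rw [ht, map_mul, hc, zero_mul]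
  rw [aeval_def, eval₂_map] at h2
  exact h2

end Pool.Agent.SE
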