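import Pool.Agent.Helper5.SE.P1c
import Pool.Agent.Helper10.SE.Defs7

/-!
# Project SE: factors with unit values at a place
-/

universe u

namespace Pool.Agent.SE

open VC Polynomial Pool.Agent.LT Pool.Agent.SC Pool.Agent.GC Pool.Agent.Helper91.Sect Pool.Agent
  Pool.Agent.TWX Pool.Agent.TWT Pool.Agent.TWH

theorem red29 {k : Type u} [Field k] {W : ValuationSubring (AlgebraicClosure k)} {f : k[X]}
    (hfW : ∀ i, algebraMap k (AlgebraicClosure k) (f.coeff i) ∈ W)
    (hfl : W.valuation (algebraMap k (AlgebraicClosure k) f.leadingCoeff) = 1)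
    (hfd : W.valuation (algebraMap k (AlgebraicClosure k) f.discr) = 1)
    {ξ : AlgebraicClosure k} (hξ : aeval ξ f = 0) : Red5 W f := by
  refine ⟨?_, hfW, hfl, hfd⟩
  have hf : f ≠ 0 := by
    rintro rfl
    rw [leadingCoeff_zero, map_zero, map_zero] at hfl
    exact zero_ne_one hfl
  by_contra h
  have h0 : f.natDegree = 0 := by omega
  rw [eq_C_of_natDegree_eq_zero h0, aeval_C] at hξ
  apply hf
  rw [eq_C_of_natDegree_eq_zero h0, (map_eq_zero _).1 hξ, C_0]

theorem exists_fac {k : Type u} [Field k] [CharZero k] {W : ValuationSubring (AlgebraicClosure k)}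
    {f : k[X]} (hfW : ∀ i, algebraMap k (AlgebraicClosure k) (f.coeff i) ∈ W)
    (hfl : W.valuation (algebraMap k (AlgebraicClosure k) f.leadingCoeff) = 1)
    (hfd : W.valuation (algebraMap k (AlgebraicClosure k) f.discr) = 1)
    {ξ : AlgebraicClosure k} (hξ : aeval ξ f = 0) {N : k[X]} (hN : N ≠ 0)
    (hNl : W.valuation (algebraMap k (AlgebraicClosure k) N.leadingCoeff) = 1)
    (hr : ∀ c : AlgebraicClosure k, aeval c N = 0 → aeval c f = 0) :
    ξ ∈ W ∧ ∃ N₁ : (AlgebraicClosure k)[X], (∀ i, N₁.coeff i ∈ W) ∧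
      N.map (algebraMap k (AlgebraicClosure k)) = (X - C ξ) ^
        ((N.map (algebraMap k (AlgebraicClosure k))).rootMultiplicity ξ) * N₁ ∧
      W.valuation (N₁.eval ξ) = 1 := by
  classical
  have hred := red29 hfW hfl hfd hξ
  refine ⟨hred.root_mem hξ, ?_⟩
  set p := N.map (algebraMap k (AlgebraicClosure k)) with hp
  have hp0 : p ≠ 0 := (Polynomial.map_ne_zero_iff (algebraMap k (AlgebraicClosure k)).injective).2 hN
  have h1 := (IsAlgClosed.splits p).eq_prod_roots
  have hroot : ∀ b ∈ p.roots, aeval b f = 0 := by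
    intro b hb
    apply hr
    have h2 := isRoot_of_mem_roots hb
    rwa [IsRoot.def, hp, eval_map, ← aeval_def] at h2
  refine ⟨C p.leadingCoeff * ((p.roots.filter (· ≠ ξ)).map fun b => X - C b).prod, ?_, ?_, ?_⟩
  · intro i
    rw [coeff_C_mul]
    refine W.mul_mem _ _ ?_ (prod_coeff_mem5 _ (fun b hb => hred.root_mem (hroot b
      (Multiset.mem_of_mem_filter hb))) i)
    rw [hp, leadingCoeff_map]
    exact (W.valuation_le_one_iff _).1 hNl.le
  · have h2 : p.roots = Multiset.replicate (p.rootMultiplicity ξ) ξ + p.roots.filter (· ≠ ξ) := by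
      rw [← count_roots, ← Multiset.filter_eq']
      exact (Multiset.filter_add_not _ _).symm
    conv_lhs => rw [h1, h2]
    rw [Multiset.map_add, Multiset.prod_add, Multiset.map_replicate, Multiset.prod_replicate]
    ring
  · rw [eval_mul, eval_C, eval_multiset_prod, Multiset.map_map, map_mul, map_multiset_prod,
      Multiset.map_map]
    have h2 : W.valuation p.leadingCoeff = 1 := by
      rw [hp, leadingCoeff_map]
      exact hNl
    rw [h2, one_mul]
    refine Multiset.prod_eq_one fun y hy => ?_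
    obtain ⟨b, hb, rfl⟩ := Multiset.mem_map.1 hy
    simp only [Function.comp_apply, eval_sub, eval_X, eval_C]
    exact hred.root_diff hξ (hroot b (Multiset.mem_of_mem_filter hb))
      (Multiset.mem_filter.1 hb).2.symm

theorem coeff_root_mem {k : Type u} [Field k] [CharZero k]
    {W : ValuationSubring (AlgebraicClosure k)}
    {f : k[X]} (hfW : ∀ i, algebraMap k (AlgebraicClosure k) (f.coeff i) ∈ W)
    (hfl : W.valuation (algebraMap k (AlgebraicClosure k) f.leadingCoeff) = 1)
    (hfd : W.valuation (algebraMap k (AlgebraicClosure k) f.discr) = 1)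
    {ξ : AlgebraicClosure k} (hξ : aeval ξ f = 0) {Φ : k[X][X]} (hΦ : Φ.Monic)
    (hΦW : ∀ i j, algebraMap k (AlgebraicClosure k) ((Φ.coeff i).coeff j) ∈ W)
    {ζ : AlgebraicClosure k} (hζ : ev2 ξ ζ Φ = 0) : ζ ∈ W := by
  classical
  have hred := red29 hfW hfl hfd hξ
  have hξW : ξ ∈ W := hred.root_mem hξ
  set ψ : k[X] →+* AlgebraicClosure k := (aeval ξ : k[X] →ₐ[k] AlgebraicClosure k).toRingHom with hψ
  have hco : ∀ i, (Φ.map ψ).coeff i ∈ W := by
    intro i
    rw [coeff_map]
    change aeval ξ (Φ.coeff i) ∈ W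
    rw [aeval_eq_sum_range]
    refine sum_mem fun j _ => ?_
    rw [Algebra.smul_def]
    exact W.mul_mem _ _ (hΦW i j) (pow_mem hξW j)
  obtain ⟨q, hq1, hq2⟩ := exists_lift_monic W (Φ.map ψ) (hΦ.map ψ) hco
  apply mem_of_root W hq2
  rw [hq1, eval_map]
  exact hζ

end Pool.Agent.SE
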