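import Pool.Agent.Helper29.SE.CG1
import Pool.Agent.Helper10.SE.Defs2

/-!
# Project SE, block CG: the core statement for all products of powers of finitely many functions, part 2
-/

universe u

set_option linter.unusedSectionVars false

namespace Pool.Agent.SE

open VC Polynomial Pool.Agent.LT Pool.Agent.SC Pool.Agent.GC Pool.Agent.Helper91.Sect Pool.Agent
  Pool.Agent.TWX Pool.Agent.TW Pool.Agent.TWU Pool.Agent.Helper37.UL UL Pool.Agent.OPN
  Pool.Agent.OPG Pool.Agent.BT Pool.Agent.TWT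

/-- The minimal polynomial of a product of powers of units. -/
theorem minpoly_prod_mem {k₀ κ Ω : Type*} [Field k₀] [Field κ] [Algebra k₀ κ]
    [Algebra.IsAlgebraic k₀ κ] [Field Ω] [Algebra k₀ Ω] [IsAlgClosed Ω] {W : ValuationSubring Ω}
    {z : κ} (hz : ∀ φ : κ →ₐ[k₀] Ω, W.valuation (φ z) = 1) :
    (∀ i, algebraMap k₀ Ω ((minpoly k₀ z).coeff i) ∈ W) ∧
      algebraMap k₀ Ω ((minpoly k₀ z).coeff 0)⁻¹ ∈ W := by
  classical
  have hint : IsIntegral k₀ z := Algebra.IsIntegral.isIntegral z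
  set p := (minpoly k₀ z).map (algebraMap k₀ Ω) with hp
  have hm : p.Monic := (minpoly.monic hint).map _
  have hs : p.Splits := IsAlgClosed.splits p
  have hroot : ∀ b ∈ p.roots, W.valuation b = 1 := by
    intro b hb
    have h1 : aeval b (minpoly k₀ z) = 0 := by
      rw [aeval_def, ← eval_map]
      exact (mem_roots'.1 hb).2
    obtain ⟨φ, hφ⟩ := IntermediateField.exists_algHom_of_splits_of_aeval
      (F := k₀) (E := κ) (K := Ω) (fun x => ⟨Algebra.IsIntegral.isIntegral x, IsAlgClosed.splits _⟩) h1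
    rw [← hφ]
    exact hz φ
  have hl : p ∈ lifts (algebraMap W Ω) := by
    rw [hs.eq_prod_roots_of_monic hm]
    refine Submonoid.multiset_prod_mem (lifts (algebraMap W Ω)).toSubmonoid _ ?_
    intro q hq
    obtain ⟨b, hb, rfl⟩ := Multiset.mem_map.1 hq
    have hbW : b ∈ W := (W.valuation_le_one_iff _).1 (hroot b hb).le
    refine (mem_lifts _).2 ⟨X - C ⟨b, hbW⟩, ?_⟩
    rw [Polynomial.map_sub, map_X, map_C]
    rfl
  refine ⟨fun i => ?_, ?_⟩
  · obtain ⟨y, hy⟩ := (lifts_iff_coeff_lifts p).1 hl i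
    rw [hp, coeff_map] at hy
    rw [← hy]
    exact y.2
  · have h1 : W.valuation (p.coeff 0) = 1 := by
      rw [hs.coeff_zero_eq_prod_roots_of_monic hm, map_mul, map_pow, Valuation.map_neg, map_one,
        one_pow, one_mul, map_multiset_prod]
      refine Multiset.prod_eq_one ?_
      intro x hx
      obtain ⟨b, hb, rfl⟩ := Multiset.mem_map.1 hx
      exact hroot b hb
    rw [map_inv₀, ← W.valuation_le_one_iff, map_inv₀]
    rw [hp, coeff_map] at h1
    rw [h1, inv_one]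

theorem ord_prod {k F : Type u} [Field k] [CharZero k] [Field F] [Algebra k F]
    (hF : IsFunctionField k F) (P : Place k F) {r : ℕ} {g : Fin r → F} (hg : ∀ s, g s ≠ 0)
    (e : Fin r → ℤ) (A : Finset (Fin r)) :
    ord P.ring (∏ s ∈ A, g s ^ e s) = ∑ s ∈ A, e s * ord P.ring (g s) := by
  classical
  induction A using Finset.induction_on with
  | empty =>
    rw [Finset.prod_empty, Finset.sum_empty]
    have h1 := ord_mul' hF P (one_ne_zero (α := F)) (one_ne_zero (α := F))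
    rw [mul_one] at h1
    omega
  | insert a A ha ih =>
    rw [Finset.prod_insert ha, Finset.sum_insert ha, ord_mul' hF P (zpow_ne_zero _ (hg a))
      (Finset.prod_ne_zero_iff.2 fun s _ => zpow_ne_zero _ (hg s)), ord_zpow' hF P (hg a), ih]

/-- The data of a place for several functions. -/
theorem exists_pdata_fam {k₀ K₀ : Type u} [Field k₀] [CharZero k₀] [Field K₀] [Algebra k₀ K₀]
    (hF₀ : IsFunctionField k₀ K₀) (P₀ : Place k₀ K₀) {r : ℕ} {g : Fin r → K₀}
    (hg : ∀ s, g s ≠ 0) :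
    ∃ (θ π : K₀) (q : k₀[X]) (p : Fin r → k₀[X]), Irreducible q ∧
      ∀ e : Fin r → ℤ, ∃ p' : k₀[X], PData (∏ s, g s ^ e s) P₀ θ π q p' ∧
        ∀ (Ω : Type u) [Field Ω] [IsAlgClosed Ω] [Algebra k₀ Ω] (W : ValuationSubring Ω),
          (∀ s i, algebraMap k₀ Ω ((p s).coeff i) ∈ W) →
          (∀ s, algebraMap k₀ Ω ((p s).coeff 0)⁻¹ ∈ W) →
          (∀ i, algebraMap k₀ Ω (p'.coeff i) ∈ W) ∧ algebraMap k₀ Ω (p'.coeff 0)⁻¹ ∈ W := by
  classical
  obtain ⟨θ, hθ, q, hq, hqθ, hall⟩ := Pool.Agent.TWT.exists_theta_all hF₀ P₀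
  obtain ⟨π, hπ0, hπ1⟩ := exists_unif hF₀ P₀
  let iR : Algebra k₀ P₀.ring :=
    ((algebraMap k₀ K₀).codRestrict P₀.ring.toSubring P₀.algebraMap_mem).toAlgebra
  have sR : IsScalarTower k₀ P₀.ring K₀ := IsScalarTower.of_algebraMap_eq fun _ => rfl
  let κ := IsLocalRing.ResidueField P₀.ring
  let iκ : Algebra k₀ κ := ((IsLocalRing.residue P₀.ring).comp (algebraMap k₀ P₀.ring)).toAlgebra
  have sκ : IsScalarTower k₀ P₀.ring κ := IsScalarTower.of_algebraMap_eq fun _ => rfl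
  have hres : ∀ z : P₀.ring, IsLocalRing.residue P₀.ring z = 0 ↔ (z : K₀) ∈ P₀.ring.nonunits := by
    intro z
    rw [IsLocalRing.residue_eq_zero_iff, ValuationSubring.mem_nonunits_iff_exists_mem_maximalIdeal]
    exact ⟨fun h => ⟨z.2, h⟩, fun ⟨_, h⟩ => h⟩
  let R : P₀.ring →ₐ[k₀] κ := { IsLocalRing.residue P₀.ring with commutes' := fun _ => rfl }
  have hR : ∀ z, R z = IsLocalRing.residue P₀.ring z := fun _ => rfl
  let V : P₀.ring →ₐ[k₀] K₀ := IsScalarTower.toAlgHom k₀ P₀.ring K₀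
  have hV : ∀ z, V z = (z : K₀) := fun _ => rfl
  have hae : ∀ (z : P₀.ring) (p : k₀[X]), aeval (R z) p = 0 ↔ aeval (z : K₀) p ∈ P₀.ring.nonunits := by
    intro z p
    rw [aeval_algHom_apply, hR, hres, ← hV, ← hV, aeval_algHom_apply]
  have hdiv : ∀ (z : P₀.ring) {p₁ : k₀[X]}, p₁ ≠ 0 → aeval (R z) p₁ = 0 →
      IsAlgebraic k₀ (R z) := fun z p₁ h1 h2 => ⟨p₁, h1, h2⟩
  have halg : Algebra.IsAlgebraic k₀ κ := by
    refine ⟨fun x => ?_⟩
    obtain ⟨z, hz⟩ := IsLocalRing.residue_surjective (R := P₀.ring) x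
    obtain ⟨q₁, h1, h2⟩ := res_alg hF₀ P₀ z.2
    rw [← hz]
    exact ⟨q₁, h1, (hae z q₁).2 h2⟩
  -- units
  have hunit : ∀ h : K₀, h ≠ 0 → ord P₀.ring h = 0 → ∃ z : P₀.ring, (z : K₀) = h ∧ R z ≠ 0 := by
    intro h h0 h1
    have h2 : h ∈ P₀.ring := (mem_iff_ord hF₀ P₀ h0).2 h1.ge
    refine ⟨⟨h, h2⟩, rfl, fun h3 => ?_⟩
    rw [hR, hres] at h3
    have h4 := (nonunit_iff_ord hF₀ P₀ h0).1 h3
    omega
  have hεord : ∀ h : K₀, h ≠ 0 → ord P₀.ring (h * π ^ (-ord P₀.ring h)) = 0 := by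
    intro h h0
    rw [ord_mul' hF₀ P₀ h0 (zpow_ne_zero _ hπ0), ord_zpow' hF₀ P₀ hπ0, hπ1]
    omega
  have hε0 : ∀ h : K₀, h ≠ 0 → h * π ^ (-ord P₀.ring h) ≠ 0 := fun h h0 =>
    mul_ne_zero h0 (zpow_ne_zero _ hπ0)
  choose ε hε hεR using fun s => hunit _ (hε0 (g s) (hg s)) (hεord (g s) (hg s))
  refine ⟨θ, π, q, fun s => minpoly k₀ (R (ε s)), hq, fun e => ?_⟩
  have hG0 : ∏ s, g s ^ e s ≠ 0 := Finset.prod_ne_zero_iff.2 fun s _ => zpow_ne_zero _ (hg s)
  obtain ⟨E, hE, hER⟩ := hunit _ (hε0 _ hG0) (hεord _ hG0)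
  have hprod : (E : K₀) = ∏ s, (ε s : K₀) ^ e s := by
    rw [hE, ord_prod hF₀ P₀ hg e Finset.univ]
    have h1 : ∀ s, (ε s : K₀) ^ e s = g s ^ e s * π ^ (-(e s * ord P₀.ring (g s))) := by
      intro s
      rw [hε, mul_zpow, ← zpow_mul]
      congr 2
      ring
    rw [Finset.prod_congr rfl fun s _ => h1 s, Finset.prod_mul_distrib]
    congr 1
    have h2 : ∀ (A : Finset (Fin r)) (f : Fin r → ℤ), π ^ (∑ s ∈ A, f s) = ∏ s ∈ A, π ^ f s := by
      intro A f
      induction A using Finset.induction_on with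
      | empty => rw [Finset.sum_empty, Finset.prod_empty, zpow_zero]
      | insert a A ha ih => rw [Finset.sum_insert ha, Finset.prod_insert ha, zpow_add₀ hπ0, ih]
    rw [← Finset.sum_neg_distrib, h2]
  have hεne : ∀ s, (ε s : K₀) ≠ 0 := by
    intro s
    rw [hε]
    exact hε0 _ (hg s)
  have hrel : E * ∏ s, ε s ^ (-e s).toNat = ∏ s, ε s ^ (e s).toNat := by
    apply Subtype.ext
    push_cast
    rw [hprod, ← Finset.prod_mul_distrib]
    refine Finset.prod_congr rfl fun s _ => ?_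
    rw [← zpow_natCast, ← zpow_natCast, ← zpow_add₀ (hεne s)]
    congr 1
    omega
  have hint : IsIntegral k₀ (R E) := Algebra.IsIntegral.isIntegral (R E)
  refine ⟨minpoly k₀ (R E), ⟨hθ, hq, hqθ, hall, hπ0, hπ1, minpoly.monic hint,
    minpoly.coeff_zero_ne_zero hint hER, ?_⟩, ?_⟩
  · rw [← hE, ← hae, minpoly.aeval]
  · intro Ω _ _ _ W h1 h2
    refine minpoly_prod_mem fun φ => ?_
    have h3 : ∀ s, W.valuation (φ (R (ε s))) = 1 := by
      intro s
      have h4 : IsIntegral k₀ (R (ε s)) := Algebra.IsIntegral.isIntegral _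
      refine val_root (minpoly.monic h4) (minpoly.coeff_zero_ne_zero h4 (hεR s)) ?_ (h1 s) (h2 s)
      rw [aeval_algHom_apply, minpoly.aeval, map_zero]
    have h4 := congrArg (fun z => W.valuation (φ (R z))) hrel
    simp only [map_mul, map_prod, map_pow, h3, one_pow, Finset.prod_const_one, mul_one] at h4
    exact h4

/-- **Block CG.** -/
theorem cg : StmtCG := by
  intro k₀ K₀ _ _ _ _ hK₀ r g hg
  classical
  obtain ⟨x, z₀, f, S, hx, hgen, hdeg, hsep, hgood⟩ := exists_goodPoly_fam hK₀ hg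
  have hG0 : ∀ e : Fin r → ℤ, ∏ s, g s ^ e s ≠ 0 := fun e =>
    Finset.prod_ne_zero_iff.2 fun s _ => zpow_ne_zero _ (hg s)
  have hc : ∀ e : Fin r → ℤ, Coord (∏ s, g s ^ e s) x z₀ f S := fun e =>
    ⟨hG0 e, hK₀, hx, hgen, hdeg, hsep, hgood e⟩
  have htx : Transcendental k₀ x⁻¹ := fun h => hx (by rw [← inv_inv x]; exact h.inv)
  have htf : Transcendental k₀ (aeval x f) := hx.aeval f (by omega)
    (mem_nonZeroDivisors_of_ne_zero
      (leadingCoeff_ne_zero.2 (ne_zero_of_natDegree_gt (n := 0) (by omega))))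
  let OO : Set (Place k₀ K₀) := {O | x⁻¹ ∈ O.ring.nonunits} ∪ {O | aeval x f ∈ O.ring.nonunits}
  have hOO : OO.Finite := (finite_zeros hK₀ htx).union (finite_zeros hK₀ htf)
  choose θf πf qf pf hqf hd using fun P₀ : Place k₀ K₀ => exists_pdata_fam hK₀ P₀ hg
  choose Ef hEf using fun P₀ : Place k₀ K₀ => exists_ctrl (hqf P₀)
  obtain ⟨M₁, hM₁, hfull⟩ := exists_full (hOO.toFinset.image qf) (fun q hq => by
    obtain ⟨O, -, rfl⟩ := Finset.mem_image.1 hq
    exact (hqf O).ne_zero)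
  let cf : k₀[X] → Finset k₀ := fun p => (Finset.range (p.natDegree + 1)).image p.coeff
  have hcf : ∀ (p : k₀[X]) (i : ℕ), p.coeff i ≠ 0 → p.coeff i ∈ cf p := by
    intro p i hi
    refine Finset.mem_image_of_mem _ (Finset.mem_range.2 ?_)
    have := le_natDegree_of_ne_zero hi
    omega
  let U : Finset k₀ := (goodElts f 1 ∪ S) ∪ (hOO.toFinset.biUnion Ef ∪
    (hOO.toFinset.biUnion (fun O => Finset.univ.biUnion fun s => cf (pf O s)) ∪
      hOO.toFinset.biUnion fun O => Finset.univ.image fun s => ((pf O s).coeff 0)⁻¹))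
  refine ⟨M₁, U.erase 0, hM₁, fun h => (Finset.mem_erase.1 h).1 rfl, ?_⟩
  intro F k K₁ _ _ _ _ _ _ _ _ _ _ hF t hfin hgenK htr v hv0 W hW e
  have hk0 : CharZero k := charZero_of_injective_algebraMap (algebraMap k₀ k).injective
  have hF0 : CharZero F := by
    refine ⟨fun m n hmn => ?_⟩
    have h1 := congrArg (algebraMap F k) hmn
    rw [map_natCast, map_natCast] at h1
    exact Nat.cast_injective h1
  have hxk : Transcendental k (algebraMap K₀ K₁ x) := transc_map hK₀ hx htr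
  have hc1 := coord_map (hc e) hgenK hxk
  have hmem : ∀ a ∈ U, algebraMap k (AlgebraicClosure k) (algebraMap k₀ k a) ∈ W := by
    intro a ha
    by_cases h0 : a = 0
    · rw [h0, map_zero, map_zero]
      exact W.zero_mem
    · exact (W.valuation_le_one_iff _).1 (hW.unit a (Finset.mem_erase.2 ⟨h0, ha⟩)).le
  have hO : ∀ P₀ : Place k₀ K₀, (x⁻¹ ∈ P₀.ring.nonunits ∨ aeval x f ∈ P₀.ring.nonunits) →
      P₀ ∈ hOO.toFinset := by
    intro P₀ h
    rw [Set.Finite.mem_toFinset]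
    exact h
  choose p' hd' hp' using fun P₀ : Place k₀ K₀ => hd P₀ e
  have hmap : algebraMap K₀ K₁ (∏ s, g s ^ e s) = ∏ s, algebraMap K₀ K₁ (g s) ^ e s := by
    rw [map_prod]
    exact Finset.prod_congr rfl fun s _ => map_zpow₀ _ _ _
  rw [← hmap]
  have halgC : ∀ a : k₀, algebraMap k₀ (AlgebraicClosure k) a =
      algebraMap k (AlgebraicClosure k) (algebraMap k₀ k a) := fun a =>
    IsScalarTower.algebraMap_apply k₀ k (AlgebraicClosure k) a
  refine deg_place (hc e) hd' (C := AlgebraicClosure k) hF hfin hc1.ff hgenK hxk hv0 hW.const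
    (fun a ha => hmem a (Finset.mem_union_left _ ha)) ?_ hW.v_mem hW.disc ?_ ?_
  · intro P₀ hP₀
    have h1 := hO P₀ hP₀
    have h2 := hp' P₀ (AlgebraicClosure k) W (fun s i => by
      rw [halgC]
      by_cases hi : (pf P₀ s).coeff i = 0
      · rw [hi, map_zero, map_zero]
        exact W.zero_mem
      · refine hmem _ (Finset.mem_union_right _ (Finset.mem_union_right _
          (Finset.mem_union_left _ ?_)))
        exact Finset.mem_biUnion.2 ⟨P₀, h1, Finset.mem_biUnion.2 ⟨s, Finset.mem_univ s,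
          hcf _ i hi⟩⟩) (fun s => by
      rw [halgC]
      refine hmem _ (Finset.mem_union_right _ (Finset.mem_union_right _
        (Finset.mem_union_right _ ?_)))
      exact Finset.mem_biUnion.2 ⟨P₀, h1, Finset.mem_image_of_mem
        (fun s => ((pf P₀ s).coeff 0)⁻¹) (Finset.mem_univ s)⟩)
    refine ⟨fun i => ?_, ?_⟩
    · rw [← halgC]
      exact h2.1 i
    · rw [← halgC]
      exact h2.2
  · intro P₀ hP₀ c hcq σ hσ
    exact hEf P₀ k (AlgebraicClosure k) W (fun a ha => hmem a (Finset.mem_union_right _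
      (Finset.mem_union_left _ (Finset.mem_biUnion.2 ⟨P₀, hO P₀ hP₀, ha⟩)))) c hcq σ hσ
  · intro P₀ hP₀ c hcq σ
    have hae : ∀ (b : AlgebraicClosure k) (q : k₀[X]), aeval b q =
        eval₂ ((algebraMap k (AlgebraicClosure k)).comp (algebraMap k₀ k)) b q := by
      intro b q
      rw [aeval_def, IsScalarTower.algebraMap_eq k₀ k (AlgebraicClosure k)]
    obtain ⟨γ, hγ, h1⟩ := hfull k (AlgebraicClosure k) (decG k W) (fun q hq b hb hbk => by
      rw [hae] at hb
      obtain ⟨γ, hγ, h2⟩ := hW.move q hq b hb hbk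
      exact ⟨γ, hγ, h2⟩) σ
    refine ⟨γ, hγ, h1 (qf P₀) (Finset.mem_image_of_mem _ (hO P₀ hP₀)) c ?_⟩
    rw [hae]
    exact hcq

end Pool.Agent.SE
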